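import Mathlib

set_option autoImplicit false

universe u

namespace Pool.Agent.Lib.PosetAlg

/-- The map `x : P → A` presents the Boolean algebra `A` as the poset algebra `F(P)` of the
partial order `P`: the map is order preserving, its range generates `A`, and every order
preserving map of `P` into a Boolean algebra extends uniquely to a homomorphism defined on `A`. -/
structure IsPosetAlgebra {P A : Type u} [PartialOrder P] [BooleanAlgebra A] (x : P → A) :
    Prop where
  monotone : Monotone x
  generates : BooleanSubalgebra.closure (Set.range x) = ⊤
  extension : ∀ (B : Type u) [BooleanAlgebra B] (g : P → B), Monotone g →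
    ∃! f : BoundedLatticeHom A B, ∀ p, f (x p) = g p

/-- A Boolean algebra is superatomic if every homomorphic image of it is atomic. -/
def Superatomic (A : Type u) [BooleanAlgebra A] : Prop :=
  ∀ (B : Type u) [BooleanAlgebra B] (f : BoundedLatticeHom A B), Function.Surjective f →
    ∀ b : B, b ≠ ⊥ → ∃ a : B, IsAtom a ∧ a ≤ b

/-- The finite antichain condition: no infinite set of pairwise incomparable elements. -/
def FiniteAntichains (P : Type u) [PartialOrder P] : Prop :=
  ∀ S : Set P, (∀ a ∈ S, ∀ b ∈ S, a ≠ b → ¬ a ≤ b ∧ ¬ b ≤ a) → S.Finite

/-- Scattered: no subset is order-isomorphic to the rationals. -/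
def Scattered (P : Type u) [PartialOrder P] : Prop :=
  ¬ ∃ S : Set P, Nonempty (S ≃o ℚ)

/-- A partial ordering is a well-quasi-ordering if it has no infinite strictly decreasing
sequence and satisfies the finite antichain condition. -/
def IsWellQuasiOrdering (W : Type u) [PartialOrder W] : Prop :=
  (¬ ∃ s : ℕ → W, ∀ n, s (n + 1) < s n) ∧ FiniteAntichains W

end Pool.Agent.Lib.PosetAlg
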