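import Mathlib

set_option autoImplicit false

namespace Pool.Agent.Lib.PosetAlg

/-- Every sequence in `A` has an increasing pair for `s`. -/
def WQ {α : Type*} (s : α → α → Prop) (A : Set α) : Prop :=
  ∀ f : ℕ → α, (∀ n, f n ∈ A) → ∃ m n, m < n ∧ s (f m) (f n)

/-- No infinite antichain. -/
def FAC {α : Type*} (r : α → α → Prop) (A : Set α) : Prop := WQ (fun x y => r x y ∨ r y x) A

/-- The piece of `x` is below the piece of `y`. -/
def Le {α ι : Type*} (r : α → α → Prop) (A : Set α) (π : α → ι) (x y : α) : Prop :=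
  ∀ a ∈ A, ∀ b ∈ A, π a = π x → π b = π y → r a b

/-- The partition of `A` into the fibres of `π` is well-quasi-ordered. -/
def Good {α ι : Type*} (r : α → α → Prop) (A : Set α) (π : α → ι) : Prop :=
  WQ (fun x y => π x = π y ∨ Le r A π x y) A

theorem WQ.mono {α : Type*} {s t : α → α → Prop} {A B : Set α} (h : WQ s A) (hBA : B ⊆ A)
    (hst : ∀ x ∈ B, ∀ y ∈ B, s x y → t x y) : WQ t B := by
  intro f hf
  obtain ⟨m, n, hmn, h1⟩ := h f fun n => hBA (hf n)
  exact ⟨m, n, hmn, hst _ (hf m) _ (hf n) h1⟩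

theorem FAC.mono {α : Type*} {r : α → α → Prop} {A B : Set α} (h : FAC r A) (hBA : B ⊆ A) :
    FAC r B := WQ.mono h hBA fun _ _ _ _ h => h

theorem FAC.flip {α : Type*} {r : α → α → Prop} {A : Set α} (h : FAC r A) :
    FAC (fun x y => r y x) A := WQ.mono h (Set.Subset.refl _) fun _ _ _ _ h => h.symm

theorem ramsey (s : ℕ → ℕ → Prop) (hs : ∀ a b c, s a b → s b c → s a c) :
    ∃ g : ℕ → ℕ, StrictMono g ∧
      ((∀ m n, m < n → s (g m) (g n)) ∨ ∀ m n, m < n → ¬ s (g m) (g n)) := by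
  have : IsTrans ℕ s := ⟨hs⟩
  obtain ⟨g, hg⟩ := exists_increasing_or_nonincreasing_subseq s id
  exact ⟨g, g.strictMono, hg⟩

theorem WQ.subseq {α : Type*} {s : α → α → Prop} {A : Set α} (h : WQ s A)
    (hs : ∀ x ∈ A, ∀ y ∈ A, ∀ z ∈ A, s x y → s y z → s x z) {f : ℕ → α} (hf : ∀ n, f n ∈ A) :
    ∃ g : ℕ → ℕ, StrictMono g ∧ ∀ m n, m < n → s (f (g m)) (f (g n)) := by
  obtain ⟨g, hg, h1 | h1⟩ := ramsey (fun a b => s (f a) (f b))
    (fun a b c => hs _ (hf a) _ (hf b) _ (hf c))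
  · exact ⟨g, hg, h1⟩
  · obtain ⟨m, n, hmn, h2⟩ := h (fun n => f (g n)) fun n => hf _
    exact absurd h2 (h1 m n hmn)

theorem FAC.subseq {α : Type*} {r : α → α → Prop} {A : Set α} (h : FAC r A)
    (hr : ∀ x y z, r x y → r y z → r x z) {f : ℕ → α} (hf : ∀ n, f n ∈ A) :
    ∃ g : ℕ → ℕ, StrictMono g ∧ ((∀ m n, m < n → r (f (g m)) (f (g n))) ∨
      ∀ m n, m < n → r (f (g n)) (f (g m))) := by
  obtain ⟨g, hg, h1 | h1⟩ := ramsey (fun a b => r (f a) (f b)) (fun a b c => hr _ _ _)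
  · exact ⟨g, hg, Or.inl h1⟩
  · obtain ⟨g', hg', h2 | h2⟩ := ramsey (fun a b => r (f (g b)) (f (g a)))
      (fun a b c h3 h4 => hr _ _ _ h4 h3)
    · exact ⟨fun n => g (g' n), hg.comp hg', Or.inr h2⟩
    · obtain ⟨m, n, hmn, h3 | h3⟩ := h (fun n => f (g (g' n))) fun n => hf _
      · exact absurd h3 (h1 _ _ (hg' hmn))
      · exact absurd h3 (h2 _ _ hmn)

/-- In a sequence with no increasing pair, there is a decreasing subsequence. -/
theorem FAC.desc {α : Type*} {r : α → α → Prop} {A : Set α} (h : FAC r A)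
    (hr : ∀ x y z, r x y → r y z → r x z) {f : ℕ → α} (hf : ∀ n, f n ∈ A)
    (hbad : ∀ m n, m < n → ¬ r (f m) (f n)) :
    ∃ g : ℕ → ℕ, StrictMono g ∧ ∀ m n, m < n → r (f (g n)) (f (g m)) := by
  obtain ⟨g, hg, h1 | h1⟩ := h.subseq hr hf
  · exact absurd (h1 0 1 Nat.zero_lt_one) (hbad _ _ (hg Nat.zero_lt_one))
  · exact ⟨g, hg, h1⟩

theorem Le.trans {α ι : Type*} {r : α → α → Prop} (hr : ∀ x y z, r x y → r y z → r x z)
    {A : Set α} {π : α → ι} {x y z : α} (hy : y ∈ A) (h1 : Le r A π x y) (h2 : Le r A π y z) :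
    Le r A π x z := fun a ha b hb hax hbz =>
  hr _ _ _ (h1 a ha y hy hax rfl) (h2 y hy b hb rfl hbz)

theorem Le.mono {α ι : Type*} {r : α → α → Prop} {A B : Set α} (hBA : B ⊆ A) {π : α → ι}
    {x y : α} (h : Le r A π x y) : Le r B π x y := fun a ha b hb =>
  h a (hBA ha) b (hBA hb)

theorem Good.mono {α ι : Type*} {r : α → α → Prop} {A B : Set α} {π : α → ι}
    (h : Good r A π) (hBA : B ⊆ A) : Good r B π :=
  WQ.mono h hBA fun _ _ _ _ h => h.imp id fun h => h.mono hBA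

theorem Good.subseq {α ι : Type*} {r : α → α → Prop} (hr : ∀ x y z, r x y → r y z → r x z)
    {A : Set α} {π : α → ι} (h : Good r A π) {f : ℕ → α} (hf : ∀ n, f n ∈ A) :
    ∃ g : ℕ → ℕ, StrictMono g ∧ ((∀ m n, π (f (g m)) = π (f (g n))) ∨
      ∀ m n, m < n → π (f (g m)) ≠ π (f (g n)) ∧ Le r A π (f (g m)) (f (g n))) := by
  obtain ⟨g, hg, h1 | h1⟩ := ramsey (fun a b => π (f a) = π (f b)) (fun a b c => Eq.trans)
  · refine ⟨g, hg, Or.inl fun m n => ?_⟩
    rcases lt_trichotomy m n with h | h | h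
    · exact h1 _ _ h
    · rw [h]
    · exact (h1 _ _ h).symm
  · obtain ⟨g', hg', h2 | h2⟩ := ramsey (fun a b => Le r A π (f (g a)) (f (g b)))
      (fun a b c => Le.trans hr (hf _))
    · exact ⟨fun n => g (g' n), hg.comp hg', Or.inr fun m n hmn =>
        ⟨h1 _ _ (hg' hmn), h2 _ _ hmn⟩⟩
    · obtain ⟨m, n, hmn, h3 | h3⟩ := h (fun n => f (g (g' n))) fun n => hf _
      · exact absurd h3 (h1 _ _ (hg' hmn))
      · exact absurd h3 (h2 _ _ hmn)

/-- Replacing the index type by `Set α`. -/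
theorem Good.toSet {α ι : Type*} {r : α → α → Prop} {A : Set α} {π : α → ι} (h : Good r A π) :
    Good r A (fun x => {y | π y = π x}) := by
  have key : ∀ x y, ({z | π z = π x} : Set α) = {z | π z = π y} ↔ π x = π y := by
    intro x y
    constructor
    · intro hxy
      have : x ∈ {z | π z = π y} := by rw [← hxy]; exact rfl
      exact this
    · intro hxy
      rw [hxy]
  refine WQ.mono h (Set.Subset.refl _) fun x _ y _ hxy => ?_
  rcases hxy with hxy | hxy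
  · exact Or.inl ((key x y).mpr hxy)
  · exact Or.inr fun a ha b hb h1 h2 => hxy a ha b hb ((key _ _).mp h1) ((key _ _).mp h2)

theorem toSet_eq {α ι : Type*} (π : α → ι) (x y : α) :
    ({z | π z = π x} : Set α) = {z | π z = π y} ↔ π x = π y := by
  constructor
  · intro hxy
    have : x ∈ {z | π z = π y} := by rw [← hxy]; exact rfl
    exact this
  · intro hxy
    rw [hxy]

/-- Lexicographic refinement. -/
theorem Good.refine {α ι κ : Type*} {r : α → α → Prop} (hr : ∀ x y z, r x y → r y z → r x z)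
    {A : Set α} {π : α → ι} (h : Good r A π) {ρ : α → κ}
    (hρ : ∀ x ∈ A, Good r {y ∈ A | π y = π x} ρ) : Good r A (fun x => (π x, ρ x)) := by
  intro f hf
  obtain ⟨g, hg, h1 | h1⟩ := h.subseq hr hf
  · obtain ⟨m, n, hmn, h2⟩ := hρ (f (g 0)) (hf _) (fun n => f (g n)) fun n => ⟨hf _, h1 _ _⟩
    refine ⟨g m, g n, hg hmn, ?_⟩
    rcases h2 with h2 | h2
    · exact Or.inl (Prod.ext (h1 _ _) h2)
    · refine Or.inr fun a ha b hb h3 h4 => ?_
      simp only [Prod.mk.injEq] at h3 h4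
      exact h2 a ⟨ha, h3.1.trans (h1 _ _)⟩ b ⟨hb, h4.1.trans (h1 _ _)⟩ h3.2 h4.2
  · refine ⟨g 0, g 1, hg Nat.zero_lt_one, Or.inr fun a ha b hb h3 h4 => ?_⟩
    simp only [Prod.mk.injEq] at h3 h4
    exact (h1 0 1 Nat.zero_lt_one).2 a ha b hb h3.1 h4.1

/-- In an increasing or decreasing pieces set-up, sets of pairwise unrelated pieces are finite. -/
theorem finite_pieces {α ι : Type*} {A : Set α} {π : α → ι} (q : α → α → Prop)
    (h : WQ (fun x y => π x = π y ∨ q x y ∨ q y x) A) {N : Set α} (hNA : N ⊆ A)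
    (hN : ∀ x ∈ N, ∀ y ∈ N, π x ≠ π y → ¬ q x y) : (π '' N).Finite := by
  by_contra hinf
  have hinf : (π '' N).Infinite := hinf
  let e := hinf.natEmbedding
  have h1 : ∀ n, ∃ x ∈ N, π x = (e n : ι) := fun n => (e n).2
  choose f hfN hf using h1
  obtain ⟨m, n, hmn, h2⟩ := h f fun n => hNA (hfN n)
  have hne : π (f m) ≠ π (f n) := by
    rw [hf, hf]
    intro h3
    exact hmn.ne (e.injective (Subtype.ext h3))
  rcases h2 with h2 | h2 | h2
  · exact hne h2
  · exact hN _ (hfN m) _ (hfN n) hne h2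
  · exact hN _ (hfN n) _ (hfN m) hne.symm h2

/-- Labels obtained from a monotone family of properties are well-quasi-orders. -/
theorem WQ_label {X α : Type*} {t : X → X → Prop} (ht : ∀ x y z, t x y → t y z → t x z)
    {S : Set X} (hS : FAC t S) {A : Set α} (φ : X → α → Prop)
    (hφ : ∀ x ∈ S, ∀ y ∈ S, t x y → ∀ p ∈ A, φ x p → φ y p)
    (hW : WQ (fun p p' => ∀ x ∈ S, φ x p' → φ x p) A) :
    WQ (fun x y => ∀ p ∈ A, φ x p → φ y p) S := by
  intro f hf
  by_contra hcon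
  push Not at hcon
  obtain ⟨g, hg, h1⟩ := hS.desc ht hf (fun m n hmn h => by
    obtain ⟨p, hp, hp1, hp2⟩ := hcon m n hmn
    exact hp2 (hφ _ (hf m) _ (hf n) h p hp hp1))
  have h2 : ∀ k, ∃ p ∈ A, φ (f (g k)) p ∧ ¬ φ (f (g (k + 1))) p :=
    fun k => hcon _ _ (hg (Nat.lt_succ_self k))
  choose p hpA hp1 hp2 using h2
  obtain ⟨a, b, hab, h3⟩ := hW p hpA
  have h4 := h3 _ (hf _) (hp1 b)
  apply hp2 a
  rcases Nat.lt_or_ge (a + 1) b with h5 | h5
  · exact hφ _ (hf _) _ (hf _) (h1 _ _ h5) _ (hpA a) h4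
  · have h6 : b = a + 1 := by omega
    rw [h6] at h4
    exact h4

end Pool.Agent.Lib.PosetAlg
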