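import Mathlib
import Pool.Agent.Lib.PosetAlg.ThmG2

set_option autoImplicit false

namespace Pool.Agent.Lib.PosetAlg

universe u

/-- Linearization of a well-quasi-ordered label. -/
theorem linearize {α : Type u} {A : Set α} (hne : A.Nonempty)
    (s : α → α → Prop) (hsr : ∀ x ∈ A, s x x)
    (hst : ∀ x ∈ A, ∀ y ∈ A, ∀ z ∈ A, s x y → s y z → s x z) (hW : WQ s A) :
    ∃ (θ : Type u) (_ : LinearOrder θ) (_ : WellFoundedLT θ) (τ : α → θ),
      (∀ x ∈ A, ∀ y ∈ A, s x y → τ x ≤ τ y) ∧ ∀ x ∈ A, ∀ y ∈ A, τ x = τ y → s x y := by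
  classical
  obtain ⟨x0, hx0⟩ := hne
  let _ : Preorder A :=
    { le := fun x y => s x y
      le_refl := fun x => hsr x x.2
      le_trans := fun x y z => hst x x.2 y y.2 z z.2 }
  let Q := Antisymmetrization A (· ≤ ·)
  let q : A → LinearExtension Q := fun x => toLinearExtension (toAntisymmetrization (· ≤ ·) x)
  have hq1 : ∀ x y : A, s x y → q x ≤ q y := by
    intro x y hxy
    apply toLinearExtension.monotone
    exact toAntisymmetrization_le_toAntisymmetrization_iff.mpr hxy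
  have hq2 : ∀ x y : A, q x = q y → s x y := by
    intro x y hxy
    have h1 : toAntisymmetrization (α := A) (· ≤ ·) x = toAntisymmetrization (· ≤ ·) y := hxy
    exact toAntisymmetrization_le_toAntisymmetrization_iff.mp (le_of_eq h1)
  have hq3 : ∀ z : LinearExtension Q, ∃ x : A, q x = z := by
    intro z
    obtain ⟨x, hx⟩ := Quotient.exists_rep (z : Q)
    exact ⟨x, hx⟩
  have hwf : WellFoundedLT (LinearExtension Q) := by
    constructor
    rw [RelEmbedding.wellFounded_iff_isEmpty]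
    constructor
    intro f
    choose x hx using fun n => hq3 (f n)
    obtain ⟨m, n, hmn, h1⟩ := hW (fun n => (x n : α)) fun n => (x n).2
    have h2 : q (x m) ≤ q (x n) := hq1 _ _ h1
    have h3 : f n < f m := f.map_rel_iff.mpr hmn
    rw [hx, hx] at h2
    exact absurd h3 (not_lt.mpr h2)
  let τ : α → LinearExtension Q := fun x => if h : x ∈ A then q ⟨x, h⟩ else q ⟨x0, hx0⟩
  have hτ : ∀ x (hx : x ∈ A), τ x = q ⟨x, hx⟩ := fun x hx => dif_pos hx
  refine ⟨LinearExtension Q, inferInstance, hwf, τ, fun x hx y hy hxy => ?_,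
    fun x hx y hy hxy => ?_⟩
  · rw [hτ x hx, hτ y hy]
    exact hq1 ⟨x, hx⟩ ⟨y, hy⟩ hxy
  · rw [hτ x hx, hτ y hy] at hxy
    exact hq2 _ _ hxy

/-- The main theorem, with a well-quasi-ordered label. -/
theorem thmG_label {α : Type*} {r : α → α → Prop} (hrefl : ∀ x, r x x)
    (hr : ∀ x y z, r x y → r y z → r x z) {A : Set α} (hA : FAC r A)
    (s : α → α → Prop) (hst : ∀ x ∈ A, ∀ y ∈ A, ∀ z ∈ A, s x y → s y z → s x z)
    (hrs : ∀ x ∈ A, ∀ y ∈ A, r x y → s x y) (hW : WQ s A)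
    (hGP : ∀ B ⊆ A, (∀ x ∈ B, ∀ y ∈ B, s x y) → GP r B) :
    ∃ π : α → Set α, Good r A π ∧ ∀ x ∈ A, ∀ y ∈ A, π x = π y → s x y := by
  rcases A.eq_empty_or_nonempty with rfl | hne
  · exact ⟨fun _ => ∅, fun f hf => absurd (hf 0) (Set.notMem_empty _),
      fun x hx => absurd hx (Set.notMem_empty _)⟩
  obtain ⟨θ, _, _, τ, h1, h2⟩ := linearize hne s (fun x hx => hrs x hx x hx (hrefl x)) hst hW
  obtain ⟨π, hπ, hπτ⟩ := thmG (τ := τ) hrefl hr hA
    (fun x hx y hy hxy => h1 x hx y hy (hrs x hx y hy hxy))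
    (fun i => hGP _ (fun x hx => hx.1) fun x hx y hy =>
      h2 x hx.1 y hy.1 (hx.2.trans hy.2.symm))
  exact ⟨π, hπ, fun x hx y hy hxy => h2 x hx y hy (hπτ x hx y hy hxy)⟩

end Pool.Agent.Lib.PosetAlg
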