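import Mathlib
import Pool.Agent.Lib.PosetAlg.Main
import Pool.Agent.Lib.PosetAlg.Defs

set_option autoImplicit false

universe u v

namespace Pool.Agent.Lib.PosetAlg

/-- Prime ideal theorem. -/
theorem exists_hom {A : Type u} [BooleanAlgebra A] (I : Order.Ideal A) {b : A} (hb : b ∉ I) :
    ∃ φ : BoundedLatticeHom A Prop, φ b ∧ ∀ i ∈ I, ¬ φ i := by
  have hd : Disjoint ((Order.PFilter.principal b : Order.PFilter A) : Set A) (I : Set A) := by
    rw [Set.disjoint_left]
    intro c hc hcI
    exact hb (I.lower (Order.PFilter.mem_principal.mp hc) hcI)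
  obtain ⟨J, hJ, hIJ, hd2⟩ := DistribLattice.prime_ideal_of_disjoint_filter_ideal hd
  have hbJ : b ∉ J := fun h =>
    (Set.disjoint_left.mp hd2) (Order.PFilter.mem_principal.mpr le_rfl) h
  refine ⟨{ toFun := fun c => c ∉ J
            map_sup' := ?_
            map_inf' := ?_
            map_top' := ?_
            map_bot' := ?_ }, hbJ, fun i hi h => h (hIJ hi)⟩
  · intro c d
    apply propext
    change c ⊔ d ∉ J ↔ (c ∉ J ∨ d ∉ J)
    rw [Order.Ideal.sup_mem_iff, not_and_or]
  · intro c d
    apply propext
    change c ⊓ d ∉ J ↔ (c ∉ J ∧ d ∉ J)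
    constructor
    · intro h
      exact ⟨fun hc => h (J.lower inf_le_left hc), fun hc => h (J.lower inf_le_right hc)⟩
    · rintro ⟨hc, hd⟩ h
      rcases hJ.mem_or_mem h with h | h
      · exact hc h
      · exact hd h
  · apply propext
    change (⊤ : A) ∉ J ↔ True
    exact ⟨fun _ => trivial, fun _ h => hbJ (J.lower le_top h)⟩
  · apply propext
    change (⊥ : A) ∉ J ↔ False
    exact ⟨fun h => h J.bot_mem, fun h => h.elim⟩

theorem hom_ext {A : Type u} {B : Type v} [BooleanAlgebra A] [BooleanAlgebra B] {ι : Type u}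
    {x : ι → A} (hx : BooleanSubalgebra.closure (Set.range x) = ⊤) {f g : BoundedLatticeHom A B}
    (h : ∀ p, f (x p) = g (x p)) : f = g := by
  ext a
  have ha : a ∈ BooleanSubalgebra.closure (Set.range x) := by
    rw [hx]
    exact BooleanSubalgebra.mem_top
  induction ha using BooleanSubalgebra.closure_bot_sup_induction with
  | mem y hy =>
    obtain ⟨p, rfl⟩ := hy
    exact h p
  | bot => rw [map_bot, map_bot]
  | sup y _ z _ hy hz => rw [map_sup, map_sup, hy, hz]
  | compl y _ hy => rw [map_compl', map_compl', hy]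

/-- The poset algebra, as clopen sets of upper sets. -/
abbrev Cl (P : Type u) [Preorder P] : BooleanSubalgebra (Set (UpperSet P)) :=
  BooleanSubalgebra.closure (Set.range fun a : P => {U : UpperSet P | a ∈ U})

theorem gen_mem {P : Type u} [Preorder P] (a : P) : {U : UpperSet P | a ∈ U} ∈ Cl P :=
  BooleanSubalgebra.subset_closure ⟨a, rfl⟩

/-- The generators. -/
def gen (P : Type u) [Preorder P] (a : P) : Cl P := ⟨{U : UpperSet P | a ∈ U}, gen_mem a⟩

theorem gen_monotone {P : Type u} [Preorder P] : Monotone (gen P) :=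
  fun _ _ h U hU => U.upper h hU

theorem closure_gen {P : Type u} [Preorder P] :
    BooleanSubalgebra.closure (Set.range (gen P)) = ⊤ := by
  have key : ∀ b (hb : b ∈ Cl P),
      (⟨b, hb⟩ : Cl P) ∈ BooleanSubalgebra.closure (Set.range (gen P)) := by
    intro b hb
    induction hb using BooleanSubalgebra.closure_bot_sup_induction with
    | mem y hy =>
      obtain ⟨p, rfl⟩ := hy
      exact BooleanSubalgebra.subset_closure ⟨p, rfl⟩
    | bot => exact BooleanSubalgebra.bot_mem
    | sup y hy z hz h1 h2 => exact BooleanSubalgebra.sup_mem h1 h2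
    | compl y hy h1 => exact BooleanSubalgebra.compl_mem h1
  rw [eq_top_iff]
  rintro ⟨b, hb⟩ _
  exact key b hb

/-- The Stone embedding. -/
def stone (B : Type u) [BooleanAlgebra B] :
    BoundedLatticeHom B (Set (BoundedLatticeHom B Prop)) where
  toFun b := {φ | φ b}
  map_sup' b c := by
    ext φ
    change φ (b ⊔ c) ↔ (φ b ∨ φ c)
    rw [map_sup]
    exact Iff.rfl
  map_inf' b c := by
    ext φ
    change φ (b ⊓ c) ↔ (φ b ∧ φ c)
    rw [map_inf]
    exact Iff.rfl
  map_top' := by
    ext φ
    change φ ⊤ ↔ True
    rw [map_top]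
    exact Iff.rfl
  map_bot' := by
    ext φ
    change φ ⊥ ↔ False
    rw [map_bot]
    exact Iff.rfl

theorem injective_of_bot {A : Type u} {B : Type v} [BooleanAlgebra A] [BooleanAlgebra B]
    (f : BoundedLatticeHom A B) (h : ∀ a, f a = ⊥ → a = ⊥) : Function.Injective f := by
  intro a b hab
  apply le_antisymm
  · rw [← sdiff_eq_bot_iff]
    apply h
    rw [map_sdiff', hab, sdiff_self]
  · rw [← sdiff_eq_bot_iff]
    apply h
    rw [map_sdiff', hab, sdiff_self]

theorem stone_injective (B : Type u) [BooleanAlgebra B] : Function.Injective (stone B) := by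
  apply injective_of_bot
  intro b hb
  by_contra hne
  obtain ⟨φ, hφ, _⟩ := exists_hom (⊥ : Order.Ideal B) (b := b)
    (fun h => hne (le_bot_iff.mp (by
      rw [← Order.Ideal.mem_principal]
      rw [Order.Ideal.principal_bot]
      exact h)))
  have h1 : φ ∈ stone B b := hφ
  rw [hb] at h1
  exact h1

/-- The poset algebra has the universal property. -/
theorem isPosetAlgebra_gen (P : Type u) [PartialOrder P] : IsPosetAlgebra (gen P) where
  monotone := gen_monotone
  generates := closure_gen
  extension := by
    intro B _ g hg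
    let Uf : BoundedLatticeHom B Prop → UpperSet P := fun φ =>
      ⟨{p | φ (g p)}, fun p q hpq hp => by
        have h1 : φ (g p) ≤ φ (g q) := OrderHomClass.mono φ (hg hpq)
        exact h1 hp⟩
    have hmem : ∀ b : Cl P, ∃ c : B, stone B c = Uf ⁻¹' (b : Set (UpperSet P)) := by
      rintro ⟨b, hb⟩
      induction hb using BooleanSubalgebra.closure_bot_sup_induction with
      | mem y hy =>
        obtain ⟨p, rfl⟩ := hy
        exact ⟨g p, rfl⟩
      | bot => exact ⟨⊥, by rw [map_bot]; rfl⟩
      | sup y hy z hz h1 h2 =>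
        obtain ⟨c, hc⟩ := h1
        obtain ⟨d, hd⟩ := h2
        exact ⟨c ⊔ d, by rw [map_sup, hc, hd]; rfl⟩
      | compl y hy h1 =>
        obtain ⟨c, hc⟩ := h1
        exact ⟨cᶜ, by rw [map_compl', hc]; rfl⟩
    choose F hF using hmem
    have hinj := stone_injective B
    refine ⟨{ toFun := F
              map_sup' := ?_
              map_inf' := ?_
              map_top' := ?_
              map_bot' := ?_ }, ?_, ?_⟩
    · intro a b
      apply hinj
      rw [map_sup, hF, hF, hF]
      rfl
    · intro a b
      apply hinj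
      rw [map_inf, hF, hF, hF]
      rfl
    · apply hinj
      rw [map_top, hF]
      rfl
    · apply hinj
      rw [map_bot, hF]
      rfl
    · intro p
      apply hinj
      change stone B (F (gen P p)) = _
      rw [hF]
      rfl
    · intro f' hf'
      apply hom_ext closure_gen
      intro p
      rw [hf']
      apply hinj
      change _ = stone B (F (gen P p))
      rw [hF]
      rfl

end Pool.Agent.Lib.PosetAlg
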