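import Mathlib
import Pool.Agent.Lib.PosetAlg.Alg

set_option autoImplicit false

universe u v

namespace Pool.Agent.Lib.PosetAlg

/-- Superatomicity in terms of ideals. -/
def SupId (A : Type u) [BooleanAlgebra A] : Prop :=
  ∀ (I : Order.Ideal A) (b : A), b ∉ I → ∃ a, a ≤ b ∧ a ∉ I ∧ ∀ c, c ≤ a → c ∈ I ∨ a \ c ∈ I

/-- An ideal from a set. -/
def mkIdeal {A : Type u} [BooleanAlgebra A] (S : Set A) (h0 : ⊥ ∈ S)
    (hsup : ∀ a ∈ S, ∀ b ∈ S, a ⊔ b ∈ S) (hlow : ∀ a ∈ S, ∀ b, b ≤ a → b ∈ S) :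
    Order.Ideal A where
  carrier := S
  lower' := fun a b hba ha => hlow a ha b hba
  nonempty' := ⟨⊥, h0⟩
  directed' := fun a ha b hb => ⟨a ⊔ b, hsup a ha b hb, le_sup_left, le_sup_right⟩

theorem mem_mkIdeal {A : Type u} [BooleanAlgebra A] (S : Set A) (h0 : ⊥ ∈ S)
    (hsup : ∀ a ∈ S, ∀ b ∈ S, a ⊔ b ∈ S) (hlow : ∀ a ∈ S, ∀ b, b ≤ a → b ∈ S) (a : A) :
    a ∈ mkIdeal S h0 hsup hlow ↔ a ∈ S := Iff.rfl

theorem exists_range {A B : Type u} [BooleanAlgebra A] [BooleanAlgebra B]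
    (f : BoundedLatticeHom A B) :
    ∃ (R : Type u) (_ : BooleanAlgebra R) (f' : BoundedLatticeHom A R)
      (j : BoundedLatticeHom R B),
      Function.Surjective f' ∧ Function.Injective j ∧ ∀ a, j (f' a) = f a := by
  let R : BooleanSubalgebra B := BooleanSubalgebra.map f ⊤
  refine ⟨R, inferInstance,
    { toFun := fun a => ⟨f a, ⟨a, BooleanSubalgebra.mem_top, rfl⟩⟩
      map_sup' := fun a b => Subtype.ext (map_sup f a b)
      map_inf' := fun a b => Subtype.ext (map_inf f a b)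
      map_top' := Subtype.ext (map_top f)
      map_bot' := Subtype.ext (map_bot f) }, R.subtype, ?_, R.subtype_injective, fun _ => rfl⟩
  rintro ⟨_, a, _, rfl⟩
  exact ⟨a, rfl⟩

theorem supId_of_superatomic {A : Type u} [BooleanAlgebra A] (h : Superatomic A) : SupId A := by
  intro I b hb
  let K : Type u := {φ : BoundedLatticeHom A Prop // ∀ i ∈ I, ¬ φ i}
  let f : BoundedLatticeHom A (Set K) :=
    { toFun := fun a => {φ | φ.1 a}
      map_sup' := fun a c => by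
        ext φ
        change φ.1 (a ⊔ c) ↔ (φ.1 a ∨ φ.1 c)
        rw [map_sup]
        exact Iff.rfl
      map_inf' := fun a c => by
        ext φ
        change φ.1 (a ⊓ c) ↔ (φ.1 a ∧ φ.1 c)
        rw [map_inf]
        exact Iff.rfl
      map_top' := by
        ext φ
        change φ.1 ⊤ ↔ True
        rw [map_top]
        exact Iff.rfl
      map_bot' := by
        ext φ
        change φ.1 ⊥ ↔ False
        rw [map_bot]
        exact Iff.rfl }
  have hf : ∀ a, f a = ⊥ ↔ a ∈ I := by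
    intro a
    constructor
    · intro ha
      by_contra hne
      obtain ⟨φ, h1, h2⟩ := exists_hom I hne
      have h3 : (⟨φ, h2⟩ : K) ∈ f a := h1
      rw [ha] at h3
      exact h3
    · intro ha
      ext φ
      exact ⟨fun h1 => φ.2 a ha h1, fun h1 => h1.elim⟩
  obtain ⟨R, iR, f', j, hs, hj, hjf⟩ := exists_range f
  have hf' : ∀ a, f' a = ⊥ ↔ a ∈ I := by
    intro a
    rw [← hf, ← hjf]
    constructor
    · intro h1
      rw [h1, map_bot]
    · intro h1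
      apply hj
      rw [h1, map_bot]
  obtain ⟨α, hα, hαb⟩ := h R f' hs (f' b) (fun h1 => hb ((hf' b).mp h1))
  obtain ⟨a0, rfl⟩ := hs α
  have h1 : f' (a0 ⊓ b) = f' a0 := by
    rw [map_inf]
    exact inf_eq_left.mpr hαb
  refine ⟨a0 ⊓ b, inf_le_right, ?_, ?_⟩
  · intro h2
    rw [← hf', h1] at h2
    exact hα.1 h2
  · intro c hc
    have h2 : f' c ≤ f' a0 := by
      rw [← h1]
      exact OrderHomClass.mono f' hc
    rcases hα.le_iff.mp h2 with h3 | h3
    · exact Or.inl ((hf' c).mp h3)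
    · right
      rw [← hf', map_sdiff', h1, h3, sdiff_self]

theorem superatomic_of_supId {A : Type u} [BooleanAlgebra A] (h : SupId A) : Superatomic A := by
  intro B _ f hs b hb
  obtain ⟨b0, rfl⟩ := hs b
  obtain ⟨a, hab, haI, hac⟩ := h (mkIdeal {a | f a = ⊥} (map_bot f)
    (fun a ha c hc => by
      change f (a ⊔ c) = ⊥
      rw [map_sup, show f a = ⊥ from ha, show f c = ⊥ from hc, sup_idem])
    (fun a ha c hc => by
      change f c = ⊥
      have h1 : f c ≤ f a := OrderHomClass.mono f hc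
      rw [show f a = ⊥ from ha] at h1
      exact le_bot_iff.mp h1)) b0 (fun h1 => hb h1)
  have haI' : f a ≠ ⊥ := fun h1 => haI h1
  refine ⟨f a, ⟨haI', ?_⟩, OrderHomClass.mono f hab⟩
  intro b1 hb1
  obtain ⟨c, rfl⟩ := hs b1
  have h1 : f (c ⊓ a) = f c := by
    rw [map_inf]
    exact inf_eq_left.mpr hb1.le
  rcases hac (c ⊓ a) inf_le_right with h2 | h2
  · have h3 : f (c ⊓ a) = ⊥ := h2
    rw [h1] at h3
    exact h3
  · have h3 : f (a \ (c ⊓ a)) = ⊥ := h2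
    rw [map_sdiff', h1, sdiff_eq_bot_iff] at h3
    exact absurd (lt_of_lt_of_le hb1 h3) (lt_irrefl _)

theorem le_of_injective {A : Type u} {B : Type v} [BooleanAlgebra A] [BooleanAlgebra B]
    {f : BoundedLatticeHom A B} (hf : Function.Injective f) {a b : A} (h : f a ≤ f b) :
    a ≤ b := by
  rw [← sdiff_eq_bot_iff]
  apply hf
  rw [map_sdiff', map_bot]
  exact sdiff_eq_bot_iff.mpr h

/-- Superatomicity is inherited by subalgebras. -/
theorem SupId.of_injective {A : Type u} {B : Type v} [BooleanAlgebra A] [BooleanAlgebra B]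
    {f : BoundedLatticeHom A B} (hf : Function.Injective f) (h : SupId B) : SupId A := by
  intro I b hb
  let S : Set (Set B) := {J | ⊥ ∈ J ∧ (∀ y ∈ J, ∀ z ∈ J, y ⊔ z ∈ J) ∧
    (∀ y ∈ J, ∀ z, z ≤ y → z ∈ J) ∧ ∀ a, f a ∈ J ↔ a ∈ I}
  have h0 : {y | ∃ i ∈ I, y ≤ f i} ∈ S := by
    refine ⟨⟨⊥, I.bot_mem, bot_le⟩, ?_, ?_, ?_⟩
    · rintro y ⟨i, hi, hy⟩ z ⟨k, hk, hz⟩
      refine ⟨i ⊔ k, Order.Ideal.sup_mem hi hk, ?_⟩
      rw [map_sup]
      exact sup_le_sup hy hz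
    · rintro y ⟨i, hi, hy⟩ z hz
      exact ⟨i, hi, hz.trans hy⟩
    · intro a
      constructor
      · rintro ⟨i, hi, hai⟩
        exact I.lower (le_of_injective hf hai) hi
      · exact fun ha => ⟨a, ha, le_rfl⟩
  obtain ⟨J, _, hJmax⟩ := zorn_subset_nonempty S (by
    intro c hc hchain hne
    refine ⟨⋃₀ c, ⟨?_, ?_, ?_, ?_⟩, fun s hs => Set.subset_sUnion_of_mem hs⟩
    · obtain ⟨J, hJ⟩ := hne
      exact ⟨J, hJ, (hc hJ).1⟩
    · rintro y ⟨J, hJ, hy⟩ z ⟨K, hK, hz⟩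
      rcases hchain.total hJ hK with h1 | h1
      · exact ⟨K, hK, (hc hK).2.1 y (h1 hy) z hz⟩
      · exact ⟨J, hJ, (hc hJ).2.1 y hy z (h1 hz)⟩
    · rintro y ⟨J, hJ, hy⟩ z hz
      exact ⟨J, hJ, (hc hJ).2.2.1 y hy z hz⟩
    · intro a
      constructor
      · rintro ⟨J, hJ, ha⟩
        exact ((hc hJ).2.2.2 a).mp ha
      · intro ha
        obtain ⟨J, hJ⟩ := hne
        exact ⟨J, hJ, ((hc hJ).2.2.2 a).mpr ha⟩) _ h0
  obtain ⟨hbot, hsup, hlow, hJI⟩ := hJmax.prop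
  have hmem : ∀ y, y ∈ mkIdeal J hbot hsup hlow ↔ y ∈ J := fun y => Iff.rfl
  obtain ⟨a', ha'b, ha'J, hc⟩ := h (mkIdeal J hbot hsup hlow) (f b)
    (fun h1 => hb ((hJI b).mp h1))
  have ha'J' : a' ∉ J := ha'J
  have hc' : ∀ c, c ≤ a' → c ∈ J ∨ a' \ c ∈ J := hc
  -- the larger ideal
  have h1 : ∃ a, f a \ a' ∈ J ∧ a ∉ I := by
    by_contra hno
    push Not at hno
    have h2 : {y | y \ a' ∈ J} ∈ S := by
      refine ⟨?_, ?_, ?_, ?_⟩
      · change ⊥ \ a' ∈ J
        rw [bot_sdiff]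
        exact hbot
      · intro y hy z hz
        change (y ⊔ z) \ a' ∈ J
        rw [sup_sdiff]
        exact hsup _ hy _ hz
      · intro y hy z hz
        exact hlow _ hy _ (sdiff_le_sdiff_right hz)
      · intro a
        constructor
        · exact fun ha => hno a ha
        · exact fun ha => hlow _ ((hJI a).mpr ha) _ sdiff_le
    have h3 : J ⊆ {y | y \ a' ∈ J} := fun y hy => hlow _ hy _ sdiff_le
    have h4 : {y | y \ a' ∈ J} ⊆ J := hJmax.2 h2 h3
    apply ha'J'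
    apply h4
    change a' \ a' ∈ J
    rw [sdiff_self]
    exact hbot
  obtain ⟨a, haJ, haI⟩ := h1
  have h2 : f a ∉ J := fun h3 => haI ((hJI a).mp h3)
  have h3 : f a ⊓ a' ∉ J := by
    intro h4
    apply h2
    rw [← sup_inf_sdiff (f a) a']
    exact hsup _ h4 _ haJ
  have h4 : a' \ (f a ⊓ a') ∈ J := (hc' _ inf_le_right).resolve_left h3
  refine ⟨a ⊓ b, inf_le_right, ?_, ?_⟩
  · intro h5
    have h6 : f a ⊓ f b ∈ J := by
      rw [← map_inf]
      exact (hJI _).mpr h5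
    apply ha'J'
    rw [← sup_inf_sdiff a' (f a ⊓ a')]
    refine hsup _ (hlow _ h6 _ ?_) _ h4
    exact le_inf (inf_le_right.trans inf_le_left) (inf_le_left.trans ha'b)
  · intro c hcab
    have hca : c ≤ a := hcab.trans inf_le_left
    have h5 : f c \ a' ∈ J := hlow _ haJ _ (sdiff_le_sdiff_right (OrderHomClass.mono f hca))
    rcases hc' (f c ⊓ a') inf_le_right with h6 | h6
    · left
      apply (hJI c).mp
      rw [← sup_inf_sdiff (f c) a']
      exact hsup _ h6 _ h5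
    · right
      apply (hJI _).mp
      rw [← sup_inf_sdiff (f ((a ⊓ b) \ c)) a']
      refine hsup _ (hlow _ h6 _ ?_) _ (hlow _ haJ _ (sdiff_le_sdiff_right
        (OrderHomClass.mono f (sdiff_le.trans inf_le_left))))
      rw [map_sdiff']
      refine le_sdiff.mpr ⟨inf_le_right, ?_⟩
      rw [disjoint_iff_inf_le]
      calc ((f (a ⊓ b) \ f c) ⊓ a') ⊓ (f c ⊓ a') ≤ (f (a ⊓ b) \ f c) ⊓ f c :=
            inf_le_inf inf_le_left inf_le_left
        _ = ⊥ := disjoint_sdiff_self_left.eq_bot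
        _ ≤ ⊥ := le_rfl

/-- Homomorphisms to `Prop` are evaluations at upper sets. -/
theorem hom_eval {W : Type u} [Preorder W] (φ : BoundedLatticeHom (Cl W) Prop) :
    ∃ U : UpperSet W, ∀ c : Cl W, φ c ↔ U ∈ (c : Set (UpperSet W)) := by
  let U : UpperSet W := ⟨{p | φ (gen W p)}, fun p q hpq hp => by
    have h1 : φ (gen W p) ≤ φ (gen W q) := OrderHomClass.mono φ (gen_monotone hpq)
    exact h1 hp⟩
  let ψ : BoundedLatticeHom (Cl W) Prop :=
    { toFun := fun c => U ∈ (c : Set (UpperSet W))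
      map_sup' := fun _ _ => rfl
      map_inf' := fun _ _ => rfl
      map_top' := rfl
      map_bot' := rfl }
  have h1 : φ = ψ := hom_ext closure_gen fun p => rfl
  refine ⟨U, fun c => ?_⟩
  rw [h1]
  exact Iff.rfl

theorem wf_upper {W : Type u} [Preorder W] (hW : WellQuasiOrdered (fun x y : W => x ≤ y)) :
    WellFounded (fun V U : UpperSet W => (U : Set W) ⊂ V) := by
  rw [RelEmbedding.wellFounded_iff_isEmpty]
  refine ⟨fun f => ?_⟩
  have h1 : ∀ m n, m < n → ((f m : UpperSet W) : Set W) ⊂ f n := fun m n hmn =>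
    f.map_rel_iff.mpr hmn
  have h2 : ∀ n, ∃ w, w ∈ f (n + 1) ∧ w ∉ f n := by
    intro n
    obtain ⟨w, hw, hw2⟩ := Set.exists_of_ssubset (h1 n (n + 1) (Nat.lt_succ_self n))
    exact ⟨w, hw, hw2⟩
  choose w hw hw2 using h2
  obtain ⟨m, n, hmn, hle⟩ := hW w
  apply hw2 n
  apply (f n).upper hle
  rcases Nat.lt_or_ge (m + 1) n with h3 | h3
  · exact (h1 (m + 1) n h3).1 (hw m)
  · have h4 : m + 1 = n := le_antisymm hmn h3
    rw [← h4]
    exact hw m

/-- The poset algebra of a well-quasi-order is superatomic. -/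
theorem supId_cl {W : Type u} [PartialOrder W] (hW : WellQuasiOrdered (fun x y : W => x ≤ y)) :
    SupId (Cl W) := by
  intro I b hb
  let S : Set (UpperSet W) := {U | U ∈ (b : Set (UpperSet W)) ∧
    ∀ i ∈ I, U ∉ ((i : Cl W) : Set (UpperSet W))}
  have hex : ∀ c : Cl W, c ≤ b → c ∉ I → ∃ U ∈ S, U ∈ (c : Set (UpperSet W)) := by
    intro c hcb hc
    obtain ⟨φ, h1, h2⟩ := exists_hom I hc
    obtain ⟨U, hU⟩ := hom_eval φ
    exact ⟨U, ⟨hcb ((hU c).mp h1), fun i hi h3 => h2 i hi ((hU i).mpr h3)⟩, (hU c).mp h1⟩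
  obtain ⟨U0, hU0, _⟩ := hex b le_rfl hb
  have hwf := wf_upper hW
  let U := hwf.min S ⟨U0, hU0⟩
  have hUS : U ∈ S := hwf.min_mem S ⟨U0, hU0⟩
  have hUm : ∀ V ∈ S, ¬ (U : Set W) ⊂ V := fun V hV => hwf.not_lt_min S hV
  let G : Set W := {w | w ∈ U ∧ ∀ v ∈ U, v ≤ w → v = w}
  have hG : G.Finite := by
    have h1 : IsAntichain (fun x y : W => x ≤ y) G := by
      intro v hv w hw hne hle
      exact hne (hw.2 v hv.1 hle)
    exact h1.finite_of_wellQuasiOrdered hW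
  have hWle : WellQuasiOrderedLE W := ⟨hW⟩
  have hGU : ∀ u ∈ U, ∃ g ∈ G, g ≤ u := by
    intro u hu
    obtain ⟨g, ⟨hg1, hg2⟩, hg3⟩ := (wellFounded_lt (α := W)).has_min {v | v ∈ U ∧ v ≤ u}
      ⟨u, hu, le_rfl⟩
    refine ⟨g, ⟨hg1, fun v hv hvg => ?_⟩, hg2⟩
    by_contra hne
    exact hg3 v ⟨hv, hvg.trans hg2⟩ (lt_of_le_of_ne hvg hne)
  have hd : (⨅ g ∈ G, {V : UpperSet W | g ∈ V}) ∈ Cl W :=
    BooleanSubalgebra.biInf_mem hG fun g _ => gen_mem g
  let d : Cl W := ⟨_, hd⟩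
  have hdmem : ∀ V : UpperSet W, V ∈ (d : Set (UpperSet W)) ↔ ∀ g ∈ G, g ∈ V := fun V =>
    Set.mem_iInter₂
  have hUd : U ∈ ((b ⊓ d : Cl W) : Set (UpperSet W)) :=
    ⟨hUS.1, (hdmem U).mpr fun g hg => hg.1⟩
  have huniq : ∀ V ∈ S, V ∈ (d : Set (UpperSet W)) → V = U := by
    intro V hV hVd
    have h1 : (U : Set W) ⊆ V := by
      intro u hu
      obtain ⟨g, hg, hgu⟩ := hGU u hu
      exact V.upper hgu ((hdmem V).mp hVd g hg)
    by_contra hne
    exact hUm V hV (Set.ssubset_iff_subset_ne.mpr ⟨h1, fun h2 => hne (SetLike.coe_injective h2.symm)⟩)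
  refine ⟨b ⊓ d, inf_le_left, fun h1 => hUS.2 _ h1 hUd, fun c hc => ?_⟩
  by_cases hUc : U ∈ (c : Set (UpperSet W))
  · right
    by_contra hne
    obtain ⟨V, hV, hVc⟩ := hex ((b ⊓ d) \ c) (sdiff_le.trans inf_le_left) hne
    have h1 : V ∈ ((b ⊓ d : Cl W) : Set (UpperSet W)) := hVc.1
    have h2 : V ∉ (c : Set (UpperSet W)) := hVc.2
    rw [huniq V hV h1.2] at h2
    exact h2 hUc
  · left
    by_contra hne
    obtain ⟨V, hV, hVc⟩ := hex c (hc.trans inf_le_left) hne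
    have h1 : V ∈ ((b ⊓ d : Cl W) : Set (UpperSet W)) := hc hVc
    rw [huniq V hV h1.2] at hVc
    exact hUc hVc

end Pool.Agent.Lib.PosetAlg
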