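import Mathlib
import Pool.Agent.Lib.PosetAlg.Fin

set_option autoImplicit false

universe u

namespace Pool.Agent.Lib.PosetAlg

theorem hom_of_map {P W : Type u} [Preorder P] [Preorder W] (Φ : UpperSet W → UpperSet P)
    (hs : Function.Surjective Φ) (hg : ∀ p, Φ ⁻¹' {U : UpperSet P | p ∈ U} ∈ Cl W) :
    ∃ f : BoundedLatticeHom (Cl P) (Cl W), Function.Injective f := by
  have hmem : ∀ b ∈ Cl P, Φ ⁻¹' b ∈ Cl W := by
    intro b hb
    induction hb using BooleanSubalgebra.closure_bot_sup_induction with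
    | mem y hy =>
      obtain ⟨p, rfl⟩ := hy
      exact hg p
    | bot => exact BooleanSubalgebra.bot_mem
    | sup y hy z hz h1 h2 => exact BooleanSubalgebra.sup_mem h1 h2
    | compl y hy h1 => exact BooleanSubalgebra.compl_mem h1
  refine ⟨{ toFun := fun b => ⟨Φ ⁻¹' (b : Set (UpperSet P)), hmem b b.2⟩
            map_sup' := fun _ _ => rfl
            map_inf' := fun _ _ => rfl
            map_top' := rfl
            map_bot' := rfl }, ?_⟩
  intro b c hbc
  have h1 : Φ ⁻¹' (b : Set (UpperSet P)) = Φ ⁻¹' (c : Set (UpperSet P)) :=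
    congrArg Subtype.val hbc
  apply Subtype.ext
  ext U
  obtain ⟨V, rfl⟩ := hs U
  exact Set.ext_iff.mp h1 V

theorem cl_antisymm (W : Type u) [Preorder W] :
    ∃ f : BoundedLatticeHom (Cl W) (Cl (Antisymmetrization W (fun x y : W => x ≤ y))),
      Function.Injective f := by
  let q : W → Antisymmetrization W (fun x y : W => x ≤ y) := toAntisymmetrization _
  refine hom_of_map (fun U => ⟨{w | q w ∈ U}, fun v w hvw hv => U.upper ?_ hv⟩) ?_ ?_
  · exact hvw
  · intro U
    refine ⟨⟨{z | ∃ w ∈ U, q w ≤ z}, fun z z' hzz' ⟨w, hw, hwz⟩ => ⟨w, hw, hwz.trans hzz'⟩⟩, ?_⟩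
    apply UpperSet.ext
    ext w
    constructor
    · rintro ⟨v, hv, hvw⟩
      exact U.upper hvw hv
    · intro hw
      exact ⟨w, hw, le_rfl⟩
  · intro w
    exact gen_mem (P := Antisymmetrization W (fun x y : W => x ≤ y)) (q w)

theorem embed_of_RS {P : Type u} [Preorder P] (h : RS (fun x y : P => x ≤ y)) :
    ∃ (W : Type u) (_ : PartialOrder W), WellQuasiOrdered (fun x y : W => x ≤ y) ∧
      ∃ f : BoundedLatticeHom (Cl P) (Cl W), Function.Injective f := by
  obtain ⟨W, le, h1, h2, h3, g, h4, h5, h6⟩ := h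
  let iW : Preorder W := { le := le, le_refl := h1, le_trans := h2 }
  have hlow : ∀ U : UpperSet W, Low le ((U : Set W)ᶜ) :=
    fun U x y hyx hx hy => hx (U.upper hyx hy)
  let Φ : UpperSet W → UpperSet P := fun U =>
    ⟨(g ((U : Set W)ᶜ))ᶜ, fun p q hpq hp hq => hp (h4 _ (hlow U) q p hpq hq)⟩
  have hΦ : ∀ U p, p ∈ Φ U ↔ p ∉ g ((U : Set W)ᶜ) := fun U p => Iff.rfl
  obtain ⟨f, hf⟩ := hom_of_map Φ (by
    intro V
    obtain ⟨D, hD, hDV⟩ := h5 ((V : Set P)ᶜ) fun p q hqp hp hq => hp (V.upper hqp hq)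
    refine ⟨⟨Dᶜ, fun a b hab ha hb => ha (hD b a hab hb)⟩, ?_⟩
    apply UpperSet.ext
    ext p
    change p ∉ g (Dᶜᶜ) ↔ p ∈ V
    rw [compl_compl, hDV]
    exact not_not) (by
    intro p
    apply mem_of_finDet
    obtain ⟨F, hF, hF2⟩ := h6 p
    refine ⟨F, hF, fun U V hUV => ?_⟩
    change p ∈ Φ U ↔ p ∈ Φ V
    rw [hΦ, hΦ]
    apply not_congr
    apply hF2 _ _ (hlow U) (hlow V)
    intro w hw
    exact not_congr (hUV w hw))
  obtain ⟨f', hf'⟩ := cl_antisymm W
  refine ⟨Antisymmetrization W (fun x y : W => x ≤ y), inferInstance, ?_, f'.comp f, ?_⟩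
  · intro s
    obtain ⟨m, n, hmn, hle⟩ := h3 (fun n => ofAntisymmetrization _ (s n)) fun _ => Set.mem_univ _
    refine ⟨m, n, hmn, ?_⟩
    rw [← toAntisymmetrization_ofAntisymmetrization (fun x y : W => x ≤ y) (s m),
      ← toAntisymmetrization_ofAntisymmetrization (fun x y : W => x ≤ y) (s n)]
    exact hle
  · intro a b hab
    exact hf (hf' hab)

theorem fac_of_finiteAntichains {P : Type u} [PartialOrder P] (h : FiniteAntichains P) :
    FAC (fun x y : P => x ≤ y) Set.univ := by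
  intro f _
  by_contra hno
  push Not at hno
  have h1 : ∀ m n, m ≠ n → ¬ f m ≤ f n ∧ ¬ f n ≤ f m := by
    intro m n hmn
    rcases lt_or_gt_of_ne hmn with h2 | h2
    · exact hno m n h2
    · exact (hno n m h2).symm
  have hinj : Function.Injective f := by
    intro m n hmn
    by_contra hne
    exact (h1 m n hne).1 hmn.le
  have h2 : (Set.range f).Finite := by
    apply h
    rintro _ ⟨m, rfl⟩ _ ⟨n, rfl⟩ hne
    exact h1 m n fun h3 => hne (by rw [h3])
  exact Set.infinite_range_of_injective hinj h2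

theorem finiteAntichains_of_fac {P : Type u} [PartialOrder P]
    (h : FAC (fun x y : P => x ≤ y) Set.univ) : FiniteAntichains P := by
  intro S hS
  by_contra hinf
  have hinf' : S.Infinite := hinf
  let e := hinf'.natEmbedding S
  obtain ⟨m, n, hmn, hc⟩ := h (fun n => (e n : P)) fun _ => Set.mem_univ _
  have hne : (e m : P) ≠ (e n : P) := fun h1 => hmn.ne (e.injective (Subtype.ext h1))
  obtain ⟨h1, h2⟩ := hS _ (e m).2 _ (e n).2 hne
  rcases hc with h3 | h3
  · exact h1 h3
  · exact h2 h3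

theorem scattered_of_nodense {P : Type u} [PartialOrder P]
    (h : ¬ ∃ R : P → P → Prop, (∀ x y, R x y → x ≤ y ∧ ¬ y ≤ x) ∧
      (∀ x y z, R x y → R y z → R x z) ∧ (∀ x y, R x y → ∃ z, R x z ∧ R z y) ∧
      ∃ x y, R x y) : Scattered P := by
  rintro ⟨S, ⟨e⟩⟩
  refine h ⟨fun x y => x ∈ S ∧ y ∈ S ∧ x < y, ?_, ?_, ?_, ?_⟩
  · rintro x y ⟨_, _, hxy⟩
    exact lt_iff_le_not_ge.mp hxy
  · rintro x y z ⟨hx, _, hxy⟩ ⟨_, hz, hyz⟩
    exact ⟨hx, hz, hxy.trans hyz⟩
  · rintro x y ⟨hx, hy, hxy⟩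
    have h1 : e ⟨x, hx⟩ < e ⟨y, hy⟩ := e.lt_iff_lt.mpr hxy
    obtain ⟨r, hr1, hr2⟩ := exists_between h1
    refine ⟨(e.symm r : P), ⟨hx, (e.symm r).2, ?_⟩, (e.symm r).2, hy, ?_⟩
    · have h2 : (⟨x, hx⟩ : S) < e.symm r := e.lt_symm_apply.mpr hr1
      exact h2
    · have h2 : e.symm r < (⟨y, hy⟩ : S) := e.symm_apply_lt.mpr hr2
      exact h2
  · refine ⟨(e.symm 0 : P), (e.symm 1 : P), (e.symm 0).2, (e.symm 1).2, ?_⟩
    have h2 : e.symm 0 < e.symm 1 := e.symm.lt_iff_lt.mpr (by norm_num)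
    exact h2

theorem nodense_of_scattered {P : Type u} [PartialOrder P] (h : Scattered P) :
    ¬ ∃ R : P → P → Prop, (∀ x y, R x y → x ≤ y ∧ ¬ y ≤ x) ∧
      (∀ x y z, R x y → R y z → R x z) ∧ (∀ x y, R x y → ∃ z, R x z ∧ R z y) ∧
      ∃ x y, R x y := by
  classical
  rintro ⟨R, h1, h2, h3, x0, y0, hxy⟩
  have hch : IsChain R ({x0, y0} : Set P) := by
    rintro a (rfl | rfl) b (rfl | rfl) hab
    · exact absurd rfl hab
    · exact Or.inl hxy
    · exact Or.inr hxy
    · exact absurd rfl hab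
  obtain ⟨C, hC, hCs⟩ := hch.exists_maxChain
  have hx0 : x0 ∈ C := hCs (Or.inl rfl)
  have hy0 : y0 ∈ C := hCs (Or.inr rfl)
  have hcmp : ∀ a ∈ C, ∀ b ∈ C, a ≠ b → R a b ∨ R b a := fun a ha b hb hab => hC.1 ha hb hab
  have hdense : ∀ u ∈ C, ∀ v ∈ C, R u v → ∃ z ∈ C, R u z ∧ R z v := by
    intro u hu v hv huv
    by_contra hno
    push Not at hno
    obtain ⟨z, huz, hzv⟩ := h3 u v huv
    have hz : ∀ w ∈ C, R w z ∨ R z w := by
      intro w hw
      by_cases hwu : w = u
      · left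
        rw [hwu]
        exact huz
      · by_cases hwv : w = v
        · right
          rw [hwv]
          exact hzv
        · rcases hcmp w hw u hu hwu with h4 | h4
          · exact Or.inl (h2 _ _ _ h4 huz)
          · rcases hcmp w hw v hv hwv with h5 | h5
            · exact absurd h5 (hno w hw h4)
            · exact Or.inr (h2 _ _ _ hzv h5)
    have hch2 : IsChain R (insert z C) := by
      intro a ha b hb hab
      rcases ha with rfl | ha
      · rcases hb with rfl | hb
        · exact absurd rfl hab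
        · exact (hz b hb).symm
      · rcases hb with rfl | hb
        · exact hz a ha
        · exact hcmp a ha b hb hab
    have h4 : C = insert z C := hC.2 hch2 (Set.subset_insert z C)
    have h5 : z ∈ C := by
      rw [h4]
      exact Set.mem_insert z C
    exact hno z h5 huz hzv
  have hRlt : ∀ a b, R a b → a < b := fun a b hab => lt_iff_le_not_ge.mpr (h1 a b hab)
  have hltR : ∀ a ∈ C, ∀ b ∈ C, a < b → R a b := by
    intro a ha b hb hab
    rcases hcmp a ha b hb hab.ne with h4 | h4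
    · exact h4
    · exact absurd (hRlt _ _ h4) (lt_asymm hab)
  have htot : ∀ a b : C, a ≤ b ∨ b ≤ a := by
    rintro ⟨a, ha⟩ ⟨b, hb⟩
    by_cases hab : a = b
    · left
      exact hab.le
    · rcases hcmp a ha b hb hab with h4 | h4
      · exact Or.inl (hRlt _ _ h4).le
      · exact Or.inr (hRlt _ _ h4).le
  let iL : LinearOrder C :=
    { (inferInstance : PartialOrder C) with
      le_total := htot
      toDecidableLE := Classical.decRel _ }
  have hD : DenselyOrdered C := by
    refine ⟨?_⟩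
    rintro ⟨a, ha⟩ ⟨b, hb⟩ hab
    obtain ⟨z, hz, h4, h5⟩ := hdense a ha b hb (hltR a ha b hb hab)
    exact ⟨⟨z, hz⟩, hRlt _ _ h4, hRlt _ _ h5⟩
  have hN : Nontrivial C := ⟨⟨x0, hx0⟩, ⟨y0, hy0⟩, fun h4 =>
    (hRlt _ _ hxy).ne (congrArg Subtype.val h4)⟩
  obtain ⟨e⟩ := Order.embedding_from_countable_to_dense (α := ℚ) (β := C)
  have hle : ∀ r s : ℚ, ((e r : C) : P) ≤ (e s : C) ↔ r ≤ s := fun r s => e.le_iff_le
  have hinj : Function.Injective (fun r : ℚ => ((e r : C) : P)) := by
    intro r s hrs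
    exact le_antisymm ((hle r s).mp hrs.le) ((hle s r).mp hrs.ge)
  refine h ⟨Set.range (fun r : ℚ => ((e r : C) : P)), ⟨OrderIso.symm
    { toEquiv := Equiv.ofInjective _ hinj
      map_rel_iff' := ?_ }⟩⟩
  intro r s
  exact hle r s

theorem wqo_of_isWellQuasiOrdering {W : Type u} [PartialOrder W] (h : IsWellQuasiOrdering W) :
    WellQuasiOrdered (fun x y : W => x ≤ y) := by
  have h1 : WellQuasiOrderedLE W := by
    rw [wellQuasiOrderedLE_iff]
    refine ⟨?_, ?_⟩
    · rw [WellFoundedLT, isWellFounded_iff, RelEmbedding.wellFounded_iff_isEmpty]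
      refine ⟨fun f => h.1 ⟨f, fun n => ?_⟩⟩
      exact f.map_rel_iff.mpr (Nat.lt_succ_self n)
    · intro s hs
      exact h.2 s fun a ha b hb hne => ⟨hs ha hb hne, hs hb ha hne.symm⟩
  exact h1.wqo

theorem isWellQuasiOrdering_of_wqo {W : Type u} [PartialOrder W]
    (h : WellQuasiOrdered (fun x y : W => x ≤ y)) : IsWellQuasiOrdering W := by
  refine ⟨?_, ?_⟩
  · rintro ⟨s, hs⟩
    obtain ⟨m, n, hmn, hle⟩ := h s
    exact absurd (strictAnti_nat_of_succ_lt hs hmn) (not_lt_of_ge hle)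
  · intro S hS
    have h1 : IsAntichain (fun x y : W => x ≤ y) S := fun a ha b hb hne => (hS a ha b hb hne).1
    exact h1.finite_of_wellQuasiOrdered h

theorem IsPosetAlgebra.exists_inj {P A : Type u} [PartialOrder P] [BooleanAlgebra A]
    {x : P → A} (hx : IsPosetAlgebra x) :
    (∃ f : BoundedLatticeHom A (Cl P), Function.Injective f) ∧
      ∃ g : BoundedLatticeHom (Cl P) A, Function.Injective g := by
  obtain ⟨f, hf, _⟩ := hx.extension (Cl P) (gen P) gen_monotone
  obtain ⟨g, hg, _⟩ := (isPosetAlgebra_gen P).extension A x hx.monotone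
  have h1 : g.comp f = BoundedLatticeHom.id A := hom_ext hx.generates fun p => by
    change g (f (x p)) = x p
    rw [hf, hg]
  have h2 : f.comp g = BoundedLatticeHom.id (Cl P) := hom_ext closure_gen fun p => by
    change f (g (gen P p)) = gen P p
    rw [hg, hf]
  refine ⟨⟨f, fun a b hab => ?_⟩, g, fun a b hab => ?_⟩
  · have h3 : (g.comp f) a = (g.comp f) b := congrArg g hab
    rw [h1] at h3
    exact h3
  · have h3 : (f.comp g) a = (f.comp g) b := congrArg f hab
    rw [h2] at h3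
    exact h3

theorem tfae {P A : Type u} [PartialOrder P] [BooleanAlgebra A] (x : P → A)
    (hx : IsPosetAlgebra x) : List.TFAE [
      Superatomic A,
      Scattered P ∧ FiniteAntichains P,
      ∃ (W : Type u) (_ : PartialOrder W), IsWellQuasiOrdering W ∧
        ∃ (B : Type u) (_ : BooleanAlgebra B) (y : W → B), IsPosetAlgebra y ∧
          ∃ f : BoundedLatticeHom A B, Function.Injective f] := by
  obtain ⟨⟨f, hf⟩, g, hg⟩ := hx.exists_inj
  tfae_have 1 → 2 := by
    intro h
    have h1 : SuperAt P := superAt_of_supId (SupId.of_injective hg (supId_of_superatomic h))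
    exact ⟨scattered_of_nodense (superAt_nodense h1), finiteAntichains_of_fac (superAt_fac h1)⟩
  tfae_have 2 → 3 := by
    rintro ⟨h1, h2⟩
    obtain ⟨W, iW, hW, f', hf'⟩ := embed_of_RS (main_theorem (fun x => le_refl x)
      (fun _ _ _ => le_trans) (fac_of_finiteAntichains h2) (nodense_of_scattered h1))
    exact ⟨W, iW, isWellQuasiOrdering_of_wqo hW, Cl W, inferInstance, gen W,
      isPosetAlgebra_gen W, f'.comp f, fun a b hab => hf (hf' hab)⟩
  tfae_have 3 → 1 := by
    rintro ⟨W, iW, hW, B, iB, y, hy, f', hf'⟩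
    obtain ⟨⟨f'', hf''⟩, _⟩ := hy.exists_inj
    have h1 : Function.Injective (f''.comp f') := fun a b hab => hf' (hf'' hab)
    exact superatomic_of_supId
      (SupId.of_injective h1 (supId_cl (wqo_of_isWellQuasiOrdering hW)))
  tfae_finish

end Pool.Agent.Lib.PosetAlg
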